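import Pool.Agent.Y207.SH.MStepA
import Pool.Agent.Y522.Stm7

/-!
# Project SH4, one smoothing step with values in an open set
-/

set_option autoImplicit false

open Set Filter Topology Metric Function MeasureTheory
open scoped Manifold ContDiff

noncomputable section

namespace Pool.Agent.Y25.SH

open Pool.Agent.Y522 Pool.Agent.Y207.SH3

/-- a mean of vectors close to `v` is close to `v` -/
theorem norm_mean_sub_le {n : ℕ} {f : E n → E n} {v : E n} {r : ℝ}
    (hf : ContinuousOn f (closedBall 0 1)) (h1 : ∀ s, ‖s‖ ≤ 1 → ‖f s - v‖ ≤ r) :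
    ‖(∫ s, kr n s • f s) - v‖ ≤ r := by
  have hv : v = ∫ s, kr n s • v := by
    rw [integral_smul_const, kr_int, one_smul]
  have hfi := kr_smul_integrable hf
  have hvi : Integrable (fun s => kr n s • v) := kr_integrable.smul_const v
  have h0 : (∫ s, kr n s • f s) - v = ∫ s, kr n s • (f s - v) := by
    conv_lhs => rw [hv]
    rw [← integral_sub hfi hvi]
    congr 1
    funext s
    rw [smul_sub]
  rw [h0]
  have h2 : ‖∫ s, kr n s • (f s - v)‖ ≤ ∫ s, kr n s * r := by
    apply norm_integral_le_of_norm_le (kr_integrable.mul_const _)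
    apply Eventually.of_forall
    intro s
    rw [norm_smul, Real.norm_of_nonneg (kr_nonneg s)]
    by_cases hs : kr n s = 0
    · rw [hs]
      simp
    · exact mul_le_mul_of_nonneg_left (h1 s (kr_lt hs).le) (kr_nonneg s)
  rwa [integral_mul_const, kr_int, one_mul] at h2

/-- Job SH4-StepV. -/
theorem mstepV (hS : StMollS) (hP : StMollP) (hD : StDisp) : StMStepV := by
  intro n X _ _ _ _ F V N B k ρ ρ' κ κ' hF hVo hVF hBi hBd hρ' hρρ hρ hκ' hκκ hM
  obtain ⟨A, hAB⟩ : ∃ A : E n → X, A = B k := ⟨_, rfl⟩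
  have hAi : InjOn A (closedBall 0 2) := by
    rw [hAB]
    exact hBi k
  have hAd : ∀ z ∈ closedBall (0 : E n) 2, LD n A z := by
    rw [hAB]
    exact hBd k
  have hMA : MBox n F A ρ κ := by
    rw [hAB]
    exact hM k
  -- the map in the chart
  obtain ⟨G, hGd⟩ : ∃ G : E n → E n, G = fun z => F (A z) := ⟨_, rfl⟩
  have hG : ContinuousOn G (closedBall 0 2) := by
    intro z hz
    rw [hGd]
    exact (hF.continuousAt.comp (hAd z hz).continuousAt).continuousWithinAt
  obtain ⟨δ, hδ, hδV⟩ : ∃ δ : ℝ, 0 < δ ∧ thickening δ (G '' closedBall (0 : E n) 1) ⊆ V := by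
    refine IsCompact.exists_thickening_subset_open ?_ hVo ?_
    · exact (isCompact_closedBall (0 : E n) 1).image_of_continuousOn
        (hG.mono (closedBall_subset_closedBall (by norm_num)))
    · rintro _ ⟨z, -, rfl⟩
      rw [hGd]
      exact hVF _
  obtain ⟨δ', hδ', hδG⟩ : ∃ δ' : ℝ, 0 < δ' ∧ ∀ x ∈ closedBall (0 : E n) 2,
      ∀ y ∈ closedBall (0 : E n) 2, dist x y < δ' → dist (G x) (G y) < δ / 2 := by
    have hu := (isCompact_closedBall (0 : E n) 2).uniformContinuousOn_of_continuous hG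
    rw [Metric.uniformContinuousOn_iff] at hu
    exact hu (δ / 2) (by linarith)
  -- the bump function
  obtain ⟨χ, hχ⟩ : ∃ χ : E n → ℝ, χ = fun z => bmp n z := ⟨_, rfl⟩
  have hχs : ContDiff ℝ ∞ χ := by
    rw [hχ]
    exact (bmp n).contDiff
  have hχ0 : ∀ z, 0 ≤ χ z := by
    intro z
    rw [hχ]
    exact (bmp n).nonneg
  have hχ1 : ∀ z, χ z ≤ 1 := by
    intro z
    rw [hχ]
    exact (bmp n).le_one
  have hχz : ∀ z, 1 ≤ ‖z‖ → χ z = 0 := by
    intro z hz
    rw [hχ]
    exact (bmp n).zero_of_le_dist (by rw [dist_zero_right]; exact hz)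
  have hχp : ∀ z, ‖z‖ < 1 → 0 < χ z := by
    intro z hz
    rw [hχ]
    exact (bmp n).pos_of_mem_ball (by rw [mem_ball_zero_iff]; exact hz)
  obtain ⟨K, hK⟩ : ∃ K : NNReal, LipschitzWith K χ := by
    refine hχs.lipschitzWith_of_hasCompactSupport ?_ (by simp)
    rw [hχ]
    exact (bmp n).hasCompactSupport
  -- the displacements
  obtain ⟨η, hη, hη2⟩ : ∃ η : ℝ, 0 < η ∧ η * (1 + κ') = κ - κ' := by
    refine ⟨(κ - κ') / (1 + κ'), div_pos (by linarith) (by linarith), ?_⟩
    rw [div_mul_cancel₀]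
    linarith
  have hdisp := fun j => hD n X A (B j) χ hAi hAd (hBi j) (hBd j) hχs hχz ρ ρ' η (by linarith)
    hρρ hρ hη
  choose ε₀ hε₀ hdisp using hdisp
  obtain ⟨j₀, -, hj₀⟩ := Finset.exists_min_image Finset.univ ε₀ ⟨k, Finset.mem_univ k⟩
  have hKp : (0 : ℝ) < K + 1 := by
    have := K.coe_nonneg
    linarith
  obtain ⟨ε, hεpos, hε4, hεK, hεj, hεδ⟩ : ∃ ε : ℝ, 0 < ε ∧ ε ≤ 1 / 4 ∧ ε * K ≤ κ / 2 ∧
      (∀ j, |ε| ≤ ε₀ j) ∧ ε < δ' := by
    obtain ⟨e1, he1, he1', he1δ⟩ : ∃ e1 : ℝ, 0 < e1 ∧ e1 ≤ ε₀ j₀ ∧ e1 < δ' :=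
      ⟨min (ε₀ j₀) (δ' / 2), lt_min (hε₀ j₀) (by linarith), min_le_left _ _,
        (min_le_right _ _).trans_lt (by linarith)⟩
    refine ⟨min e1 (min (1 / 4) (κ / 2 / (K + 1))),
      lt_min he1 (lt_min (by norm_num) (div_pos (by linarith) hKp)),
      (min_le_right _ _).trans (min_le_left _ _), ?_, ?_, (min_le_left _ _).trans_lt he1δ⟩
    · have h1 : min e1 (min (1 / 4) (κ / 2 / (K + 1))) ≤ κ / 2 / (K + 1) :=
        (min_le_right _ _).trans (min_le_right _ _)
      calc min e1 (min (1 / 4) (κ / 2 / (K + 1))) * (K : ℝ)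
          ≤ κ / 2 / (K + 1) * K := mul_le_mul_of_nonneg_right h1 K.coe_nonneg
        _ ≤ κ / 2 / (K + 1) * (K + 1) := by
            apply mul_le_mul_of_nonneg_left (by linarith)
            exact (div_pos (by linarith) hKp).le
        _ = κ / 2 := div_mul_cancel₀ _ hKp.ne'
    · intro j
      rw [abs_of_pos (lt_min he1 (lt_min (by norm_num) (div_pos (by linarith) hKp)))]
      exact (min_le_left _ _).trans (he1'.trans (hj₀ j (Finset.mem_univ j)))
  obtain ⟨c, hc⟩ : ∃ c : E n → ℝ, c = fun z => ε * χ z := ⟨_, rfl⟩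
  have hcs : ContDiff ℝ ∞ c := by
    rw [hc]
    exact contDiff_const.mul hχs
  have hc0 : ∀ z, 0 ≤ c z := by
    intro z
    rw [hc]
    exact mul_nonneg hεpos.le (hχ0 z)
  have hc4 : ∀ z, c z ≤ 1 / 4 := by
    intro z
    rw [hc]
    calc ε * χ z ≤ ε * 1 := mul_le_mul_of_nonneg_left (hχ1 z) hεpos.le
      _ ≤ 1 / 4 := by linarith
  have hcz : ∀ z, 1 ≤ ‖z‖ → c z = 0 := by
    intro z hz
    rw [hc]
    change ε * χ z = 0
    rw [hχz z hz, mul_zero]
  have hc1 : ∀ z, 1 < ‖z‖ → c z = 0 := fun z hz => hcz z hz.le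
  have hcδ : ∀ z, c z < δ' := by
    intro z
    rw [hc]
    calc ε * χ z ≤ ε * 1 := mul_le_mul_of_nonneg_left (hχ1 z) hεpos.le
      _ < δ' := by linarith
  have hcp : ∀ z, ‖z‖ < 1 → 0 < c z := by
    intro z hz
    rw [hc]
    exact mul_pos hεpos (hχp z hz)
  have hcL : ∀ y z, |c y - c z| ≤ κ / 2 * ‖y - z‖ := by
    intro y z
    rw [hc]
    change |ε * χ y - ε * χ z| ≤ _
    rw [← mul_sub, abs_mul, abs_of_pos hεpos]
    have h1 : |χ y - χ z| ≤ K * ‖y - z‖ := by
      have h2 := hK.dist_le_mul y z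
      rwa [Real.dist_eq, dist_eq_norm] at h2
    calc ε * |χ y - χ z| ≤ ε * (K * ‖y - z‖) := mul_le_mul_of_nonneg_left h1 hεpos.le
      _ = (ε * K) * ‖y - z‖ := by ring
      _ ≤ κ / 2 * ‖y - z‖ := mul_le_mul_of_nonneg_right hεK (norm_nonneg _)
  obtain ⟨hS1, hS2, hS3, hS4⟩ := hS n G c hG hcs hc0 hc4 hc1
  have hin : ∀ z : E n, ‖z‖ ≤ 1 → ∀ s : E n, ‖s‖ ≤ 1 → ‖z + c z • s‖ ≤ 3 / 2 := by
    intro z hz s hs
    calc ‖z + c z • s‖ ≤ ‖z‖ + ‖c z • s‖ := norm_add_le _ _
      _ = ‖z‖ + c z * ‖s‖ := by rw [norm_smul, Real.norm_of_nonneg (hc0 z)]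
      _ ≤ 1 + 1 / 4 * 1 := by
          apply add_le_add hz
          exact mul_le_mul (hc4 z) hs (norm_nonneg _) (by norm_num)
      _ ≤ 3 / 2 := by norm_num
  have hpos : ∀ z, 0 < c z → LD n (Moll n G c) z := by
    intro z hz
    apply LD_of_pos
    · have h1 : ∀ᶠ y in 𝓝 z, 0 < c y :=
        hcs.continuous.continuousAt.eventually (lt_mem_nhds hz)
      filter_upwards [h1] with y hy
      exact hS3 y hy
    · intro u hu h0
      obtain ⟨ℓ, hℓ⟩ := hMA u hu
      have h1 := hP n G c κ u ℓ (by linarith) hG hcs hc0 hc4 hc1 hcL hu ?_ z hz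
      · rw [h0, map_zero] at h1
        exact lt_irrefl _ h1
      · intro p q hp hq t ht hpq
        rw [hGd]
        exact hℓ p q (by linarith) (by linarith) t ht hpq
  -- the new map
  have hMF : ∀ z : E n, ‖z‖ ≤ 2 → MF A c F (A z) = Moll n G c z := by
    intro z hz
    rw [hGd]
    exact MF_of hAi hc1 hz
  have hcl : IsClosed (A '' closedBall (0 : E n) 1) := by
    apply IsCompact.isClosed
    apply (isCompact_closedBall (0 : E n) 1).image_of_continuousOn
    intro z hz
    exact (hAd z (closedBall_subset_closedBall (by norm_num) hz)).continuousAt.continuousWithinAt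
  have hloc : ∀ z : E n, ‖z‖ ≤ 1 → ∃ p : X → E n, LD n p (A z) ∧ p (A z) = z ∧
      MF A c F =ᶠ[𝓝 (A z)] fun w => Moll n G c (p w) := by
    intro z hz
    obtain ⟨p, hp1, hp2, hp3, hp4⟩ :=
      (hAd z (by rw [mem_closedBall_zero_iff]; linarith)).exists_inverse
    refine ⟨p, hp1, hp2, ?_⟩
    have h1 : ∀ᶠ w in 𝓝 (A z), ‖p w‖ < 2 := by
      refine hp1.continuousAt.norm.eventually (p := fun r : ℝ => r < 2) ?_
      change ∀ᶠ y in 𝓝 ‖p (A z)‖, y < 2
      rw [hp2]
      exact gt_mem_nhds (by linarith)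
    filter_upwards [h1, hp4] with w hw1 hw2
    rw [← hMF (p w) hw1.le, hw2]
  have hoff : ∀ x, x ∉ A '' closedBall (0 : E n) 1 → MF A c F =ᶠ[𝓝 x] F := by
    intro x hx
    filter_upwards [hcl.isOpen_compl.mem_nhds hx] with y hy
    exact MF_off hy
  have hLD : ∀ z : E n, ‖z‖ ≤ 1 → LD n (Moll n G c) z → LD n (MF A c F) (A z) := by
    intro z hz h
    obtain ⟨p, hp1, hp2, hp3⟩ := hloc z hz
    refine LD.congr ?_ hp3
    refine LD.comp_fun ?_ hp1
    rw [hp2]
    exact h
  refine ⟨MF A c F, ?_, ?_, ?_, ?_, ?_, ?_⟩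
  · -- continuity
    rw [continuous_iff_continuousAt]
    intro x
    by_cases hx : x ∈ A '' closedBall (0 : E n) 1
    · obtain ⟨z, hz, rfl⟩ := hx
      rw [mem_closedBall_zero_iff] at hz
      obtain ⟨p, hp1, hp2, hp3⟩ := hloc z hz
      rw [continuousAt_congr hp3]
      have h1 : ContinuousAt (Moll n G c) (p (A z)) := by
        rw [hp2]
        apply hS1.continuousAt
        refine mem_of_superset (ball_mem_nhds z (ε := 1 / 2) (by norm_num)) ?_
        intro y hy
        rw [mem_ball, dist_eq_norm] at hy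
        rw [mem_closedBall_zero_iff]
        have h2 := norm_le_norm_add_norm_sub' y z
        linarith
      exact h1.comp hp1.continuousAt
    · rw [continuousAt_congr (hoff x hx)]
      exact hF.continuousAt
  · intro p hp
    rw [← hAB] at hp
    exact MF_off hp
  · intro x
    by_cases hx : x ∈ A '' closedBall (0 : E n) 1
    · obtain ⟨z, hz, rfl⟩ := hx
      have hz' := hz
      rw [mem_closedBall_zero_iff] at hz
      rw [hMF z (by linarith)]
      apply hδV
      rw [mem_thickening_iff]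
      refine ⟨G z, ⟨z, hz', rfl⟩, ?_⟩
      rw [dist_eq_norm]
      unfold Moll
      refine (norm_mean_sub_le (r := δ / 2) ?_ ?_).trans_lt (by linarith)
      · refine hG.comp (by fun_prop) ?_
        intro s hs
        rw [mem_closedBall_zero_iff] at hs ⊢
        exact (hin z hz s hs).trans (by norm_num)
      · intro s hs
        rw [← dist_eq_norm]
        refine (hδG _ ?_ _ ?_ ?_).le
        · rw [mem_closedBall_zero_iff]
          exact (hin z hz s hs).trans (by norm_num)
        · rw [mem_closedBall_zero_iff]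
          linarith
        · rw [dist_eq_norm, add_sub_cancel_left, norm_smul, Real.norm_of_nonneg (hc0 z)]
          calc c z * ‖s‖ ≤ c z * 1 := mul_le_mul_of_nonneg_left hs (hc0 z)
            _ < δ' := by
              rw [mul_one]
              exact hcδ z
    · rw [MF_off hx]
      exact hVF x
  · intro x hx
    by_cases hxA : x ∈ A '' closedBall (0 : E n) 1
    · obtain ⟨z, hz, rfl⟩ := hxA
      rw [mem_closedBall_zero_iff] at hz
      apply hLD z hz
      rcases (hc0 z).lt_or_eq with h | h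
      · exact hpos z h
      · have hGz : LD n G z := by
          rw [hGd]
          exact LD.comp_fun hx (hAd z (by rw [mem_closedBall_zero_iff]; linarith))
        have hev : ∀ᶠ y in 𝓝 z, ContDiffAt ℝ ∞ G y := by
          filter_upwards [hGz.eventually] with y hy
          exact hy.contDiffAt
        obtain ⟨h1, h2⟩ := hS4 z hz h.symm hev
        obtain ⟨e, he⟩ := hGz.exists_equiv
        refine LD_of_contDiffAt ?_ e ?_
        · filter_upwards [eventually_eventually_nhds.2 hev] with y hy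
          rcases (hc0 y).lt_or_eq with h3 | h3
          · exact hS3 y h3
          · rcases le_or_gt ‖y‖ 1 with h4 | h4
            · exact (hS4 y h4 h3.symm hy).1
            · refine hy.self_of_nhds.congr_of_eventuallyEq ?_
              have h5 : ∀ᶠ w in 𝓝 y, 1 < ‖w‖ := continuous_norm.continuousAt.eventually
                (lt_mem_nhds h4)
              filter_upwards [h5] with w hw
              exact hS2 w (hc1 w hw)
        · rw [← he.fderiv, ← h2]
          exact (h1.differentiableAt (by simp)).hasFDerivAt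
    · exact LD.congr hx (hoff x hxA)
  · intro z hz
    rw [← hAB]
    exact hLD z (by linarith) (hpos z (hcp z (by linarith)))
  · intro j u hu
    obtain ⟨ℓ, hℓ⟩ := hM j u hu
    refine ⟨ℓ, ?_⟩
    intro p q hp hq t ht hpq
    -- the displaced points
    have hT : ∀ r : E n, ‖r‖ ≤ ρ' → ∀ s : E n, ‖s‖ ≤ 1 → ∀ τ : E n → E n,
        (∀ p, ‖p‖ ≤ ρ' → ∀ z, ‖z‖ ≤ 1 → A z = B j p → B j (τ p) = A (z + (ε * χ z) • s)) →
        (∀ p, ‖p‖ ≤ ρ' → B j p ∉ A '' closedBall 0 1 → τ p = p) →
        TT A c s (B j r) = B j (τ r) := by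
      intro r hr s hs τ h1 h2
      by_cases hx : B j r ∈ A '' closedBall (0 : E n) 1
      · obtain ⟨z, hz, hzr⟩ := hx
        rw [mem_closedBall_zero_iff] at hz
        rw [h1 r hr z hz hzr, ← hzr, TT_of hAi s hz, hc]
      · rw [h2 r hr hx, TT_off s hx]
    have hcont : ∀ r : E n, ‖r‖ ≤ ρ' → ContinuousOn (fun s : E n => F (TT A c s (B j r)))
        (closedBall 0 1) := by
      intro r hr
      by_cases hx : B j r ∈ A '' closedBall (0 : E n) 1
      · obtain ⟨z, hz, hzr⟩ := hx
        rw [mem_closedBall_zero_iff] at hz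
        have h1 : (fun s : E n => F (TT A c s (B j r))) = fun s => G (z + c z • s) := by
          funext s
          rw [← hzr, TT_of hAi s hz, hGd]
        rw [h1]
        refine hG.comp (by fun_prop) ?_
        intro s hs
        rw [mem_closedBall_zero_iff] at hs ⊢
        exact (hin z hz s hs).trans (by norm_num)
      · have h1 : (fun s : E n => F (TT A c s (B j r))) = fun _ => F (B j r) := by
          funext s
          rw [TT_off s hx]
        rw [h1]
        exact continuousOn_const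
    unfold MF
    apply mean_lt ℓ (hcont p hp) (hcont q hq)
    intro s hs
    obtain ⟨τ, hτ1, hτ2, hτ3, hτ4⟩ := hdisp j ε (hεj j) s hs
    rw [hT p hp s hs τ hτ2 hτ3, hT q hq s hs τ hτ2 hτ3]
    apply hℓ (τ p) (τ q) (hτ1 p hp) (hτ1 q hq) t ht
    have h1 : ‖q - p‖ ≤ (1 + κ') * t := by
      have h2 : q - p = (q - p - t • u) + t • u := by abel
      rw [h2]
      calc _ ≤ ‖q - p - t • u‖ + ‖t • u‖ := norm_add_le _ _
        _ ≤ κ' * t + t := by
            rw [norm_smul, hu, mul_one, Real.norm_of_nonneg ht.le]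
            linarith
        _ = (1 + κ') * t := by ring
    have h3 : τ q - τ p - t • u = ((τ q - τ p) - (q - p)) + (q - p - t • u) := by abel
    rw [h3]
    calc _ ≤ ‖(τ q - τ p) - (q - p)‖ + ‖q - p - t • u‖ := norm_add_le _ _
      _ ≤ η * ‖q - p‖ + κ' * t := add_le_add (hτ4 p q hp hq) hpq
      _ ≤ η * ((1 + κ') * t) + κ' * t := by
          gcongr
      _ = (η * (1 + κ')) * t + κ' * t := by ring
      _ = κ * t := by
          rw [hη2]
          ring

end Pool.Agent.Y25.SH
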